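import Pool.Agent.P.MP_358d01_co.AD.Lift
import Pool.Agent.P.MP_358d01_co.Fur.TTHK
import Pool.Agent.P.MP_358d01_co.Fur.TGEN

set_option autoImplicit false

/-! From the tree model to point sets in every dimension, and the choice of the numbers. -/

namespace Pool.Agent.Fur.AD

open Classical Finset MeasureTheory

/-- Points of a tree with fast decreasing scales. -/
theorem thick {κ : Type} [Fintype κ] [LinearOrder κ] (n : ℕ) (u : κ → ℕ → ℝ) {γ : ℝ}
    (hγ : 0 < γ) :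
    ∃ (P : (κ → Bool) → Fin n → ℝ) (δ : ℝ), 0 < δ ∧
      ∀ (x y : Fin n → ℝ) (z z' : κ → Bool), (∀ i, |x i - P z i| ≤ δ) → (∀ i, |y i - P z' i| ≤ δ) →
        ∀ (c : κ) (θ : Fin n → ℝ), FD z z' c → 0 < ∑ i, θ i * (x i - y i) →
          0 < sg (z c) * ∑ i, θ i * u c i + γ * ∑ i, |θ i| := by
  set U : ℝ := 1 + ∑ c, ∑ i : Fin n, |u c i| with hUdef
  have hU : ∀ c (i : Fin n), |u c i| ≤ U := by
    intro c i
    have a1 : |u c i| ≤ ∑ j : Fin n, |u c j| :=
      single_le_sum (f := fun j : Fin n => |u c j|) (fun _ _ => abs_nonneg _) (mem_univ i)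
    have a2 : ∑ j : Fin n, |u c j| ≤ ∑ c', ∑ j : Fin n, |u c' j| :=
      single_le_sum (f := fun c' => ∑ j : Fin n, |u c' j|)
        (fun _ _ => sum_nonneg fun _ _ => abs_nonneg _) (mem_univ c)
    linarith
  have hU1 : 1 ≤ U := by
    have : 0 ≤ ∑ c, ∑ i : Fin n, |u c i| :=
      sum_nonneg fun _ _ => sum_nonneg fun _ _ => abs_nonneg _
    linarith
  set N : ℝ := (Fintype.card κ : ℝ) with hN
  have hN0 : 0 ≤ N := Nat.cast_nonneg _
  have hden : 0 < 2 * (N + 1) * U := by positivity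
  set lam : ℝ := min 1 (γ / (2 * (N + 1) * U)) with hlam
  have h0 : 0 < lam := lt_min one_pos (div_pos hγ hden)
  have h1 : lam ≤ 1 := min_le_left _ _
  have h2 : lam * (2 * (N + 1) * U) ≤ γ := (le_div_iff₀ hden).mp (min_le_right _ _)
  have hl : N * lam * U ≤ γ / 2 := by
    have : 0 ≤ lam * U := mul_nonneg h0.le (by linarith)
    nlinarith
  refine ⟨fun z i => THKA.pt (fun c _ => u c i) lam z 0, lam ^ Fintype.card κ * γ / 4,
    by positivity, ?_⟩
  intro x y z z' hx hy c θ hfd hpos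
  have hp : 0 < lam ^ THKA.rk c := pow_pos h0 _
  have hle : lam ^ Fintype.card κ ≤ lam ^ THKA.rk c :=
    pow_le_pow_of_le_one h0.le h1 (THKA.rk_le c)
  have hle' : lam ^ Fintype.card κ * γ ≤ lam ^ THKA.rk c * γ :=
    mul_le_mul_of_nonneg_right hle hγ.le
  have hb : ∀ i, |x i - y i - sg (z c) * (lam ^ THKA.rk c * u c i)| ≤ lam ^ THKA.rk c * γ := by
    intro i
    have k1 := abs_le.mp (THKA.key (fun c _ => u c i) lam U γ h0 h1 (fun c _ => hU c i) hl
      z z' c hfd 0)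
    have k2 := abs_le.mp (hx i)
    have k3 := abs_le.mp (hy i)
    rw [abs_le]
    constructor <;> linarith [k1.1, k1.2, k2.1, k2.2, k3.1, k3.2]
  have hs : ∑ i, θ i * (x i - y i) ≤
      lam ^ THKA.rk c * (sg (z c) * ∑ i, θ i * u c i + γ * ∑ i, |θ i|) := by
    rw [mul_sum, mul_sum, ← sum_add_distrib, mul_sum]
    refine sum_le_sum fun i _ => ?_
    have k1 : θ i * (x i - y i - sg (z c) * (lam ^ THKA.rk c * u c i)) ≤
        |θ i| * (lam ^ THKA.rk c * γ) := by
      refine (le_abs_self _).trans ?_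
      rw [abs_mul]
      exact mul_le_mul_of_nonneg_left (hb i) (abs_nonneg _)
    nlinarith [k1]
  exact (mul_pos_iff_of_pos_left hp).mp (hpos.trans_le hs)

theorem span_ne_top {n : ℕ} (U : Finset (EuclideanSpace ℝ (Fin n)))
    (hU : U.card ≤ n) : affineSpan ℝ (U : Set (EuclideanSpace ℝ (Fin n))) ≠ ⊤ := by
  intro h
  rcases U.eq_empty_or_nonempty with rfl | hne
  · rw [coe_empty, AffineSubspace.span_empty] at h
    exact bot_ne_top h
  · obtain ⟨m, hm⟩ : ∃ m, U.card = m + 1 := ⟨U.card - 1, by have := hne.card_pos; omega⟩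
    have h1 := finrank_vectorSpan_image_finset_le ℝ (id : EuclideanSpace ℝ (Fin n) → _) U hm
    rw [image_id, ← direction_affineSpan, h, AffineSubspace.direction_top, finrank_top,
      finrank_euclideanSpace, Fintype.card_fin] at h1
    omega

theorem exists_new {n : ℕ} (A : Finset (EuclideanSpace ℝ (Fin n)))
    (c : EuclideanSpace ℝ (Fin n)) {δ : ℝ} (hδ : 0 < δ) :
    ∃ p ∈ Metric.ball c δ, ∀ U ⊆ A, U.card ≤ n →
      p ∉ affineSpan ℝ (U : Set (EuclideanSpace ℝ (Fin n))) := by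
  by_contra hc
  push Not at hc
  have h0 : volume (⋃ U ∈ A.powerset.filter (fun U => U.card ≤ n),
      (affineSpan ℝ (U : Set (EuclideanSpace ℝ (Fin n))) : Set (EuclideanSpace ℝ (Fin n)))) = 0 :=
    (measure_biUnion_null_iff (Finset.countable_toSet _)).2 fun U hU =>
      Measure.addHaar_affineSubspace _ _ (span_ne_top U (mem_filter.1 hU).2)
  refine (Metric.measure_ball_pos volume c hδ).ne' (measure_mono_null (fun p hp => ?_) h0)
  obtain ⟨U, h1, h2, h3⟩ := hc p hp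
  exact Set.mem_biUnion (mem_coe.2 (mem_filter.2 ⟨mem_powerset.2 h1, h2⟩)) h3

/-- Perturbation into general position. -/
theorem generic {n : ℕ} (hn : 0 < n) {α : Type} (P : α → EuclideanSpace ℝ (Fin n)) {δ : ℝ}
    (hδ : 0 < δ) (s : Finset α) :
    ∃ P' : α → EuclideanSpace ℝ (Fin n), (∀ z, P' z ∈ Metric.ball (P z) δ) ∧ Set.InjOn P' s ∧
      ∀ T ⊆ s.image P', T.card ≤ n + 1 → AffineIndependent ℝ
        fun x : (T : Set (EuclideanSpace ℝ (Fin n))) => (x : EuclideanSpace ℝ (Fin n)) := by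
  induction s using Finset.induction_on with
  | empty =>
    refine ⟨P, fun z => Metric.mem_ball_self hδ, by simp, fun T hT _ => ?_⟩
    obtain rfl : T = ∅ := by simpa using hT
    have : IsEmpty ((∅ : Finset (EuclideanSpace ℝ (Fin n))) : Set (EuclideanSpace ℝ (Fin n))) := by
      simp only [coe_empty]; infer_instance
    exact affineIndependent_of_subsingleton _ _
  | insert a s ha ih =>
    obtain ⟨Q, h1, h2, h3⟩ := ih
    obtain ⟨p, hp, hq⟩ := exists_new (s.image Q) (P a) hδ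
    have hu : ∀ z ∈ s, Function.update Q a p z = Q z := fun z hz =>
      Function.update_of_ne (fun e : z = a => ha (e ▸ hz)) _ _
    have hpn : ∀ z ∈ s, Q z ≠ p := fun z hz e =>
      hq {Q z} (by simpa using ⟨z, hz, rfl⟩) (by rw [card_singleton]; omega)
        (mem_affineSpan ℝ (by simp [e]))
    have him : (insert a s).image (Function.update Q a p) = insert p (s.image Q) := by
      rw [image_insert, Function.update_self, image_congr fun z hz => hu z hz]
    refine ⟨Function.update Q a p, fun z => ?_, fun x hx y hy e => ?_, fun T hT hc => ?_⟩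
    · by_cases e : z = a
      · rw [e, Function.update_self]
        exact hp
      · rw [Function.update_of_ne e]
        exact h1 z
    · rcases mem_insert.1 (mem_coe.1 hx) with hx | hx <;>
        rcases mem_insert.1 (mem_coe.1 hy) with hy | hy
      · rw [hx, hy]
      · rw [hx, Function.update_self, hu y hy] at e
        exact absurd e.symm (hpn y hy)
      · rw [hy, Function.update_self, hu x hx] at e
        exact absurd e (hpn x hx)
      · rw [hu x hx, hu y hy] at e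
        exact h2 hx hy e
    · rw [him] at hT
      by_cases e : p ∈ T
      · have hs : T.erase p ⊆ s.image Q := subset_insert_iff.1 hT
        have := card_erase_of_mem e
        exact GENA.step e (h3 _ hs (by omega)) (hq _ hs (by omega))
      · exact h3 T ((subset_insert_iff_of_notMem e).1 hT) hc

theorem lin_eq {n : ℕ} (f : EuclideanSpace ℝ (Fin n) →L[ℝ] ℝ) (x : EuclideanSpace ℝ (Fin n)) :
    f x = ∑ i, x i * f (EuclideanSpace.single i (1 : ℝ)) := by
  have e : x = ∑ i, x i • EuclideanSpace.single i (1 : ℝ) := by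
    ext j
    simp [Pi.single_apply]
  conv_lhs => rw [e]
  rw [map_sum]
  refine sum_congr rfl fun i _ => ?_
  rw [map_smul, smul_eq_mul]

theorem normalize {n : ℕ} (j : Fin n) (T : Finset (EuclideanSpace ℝ (Fin n)))
    (p : EuclideanSpace ℝ (Fin n)) (θ : Fin n → ℝ) (h1 : θ j ≠ 0)
    (h : ∀ q ∈ T, q ≠ p → 0 < ∑ i, θ i * (p i - q i)) :
    ∃ θ : Fin n → ℝ, (θ j = 1 ∨ θ j = -1) ∧ ∀ q ∈ T, q ≠ p → 0 < ∑ i, θ i * (p i - q i) := by
  have hpos : 0 < |θ j| := abs_pos.2 h1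
  refine ⟨fun i => θ i / |θ j|, ?_, fun q hq hne => ?_⟩
  · rcases lt_or_gt_of_ne h1 with hl | hl
    · right
      show θ j / |θ j| = -1
      rw [abs_of_neg hl]
      field_simp
    · left
      show θ j / |θ j| = 1
      rw [abs_of_pos hl]
      field_simp
  · have e : ∑ i, θ i / |θ j| * (p i - q i) = (∑ i, θ i * (p i - q i)) / |θ j| := by
      rw [sum_div]
      exact sum_congr rfl fun i _ => by ring
    rw [e]
    exact div_pos (h q hq hne) hpos

/-- An exposing direction whose coordinate `j` is one or minus one. -/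
theorem expose {n : ℕ} (j : Fin n) (T : Finset (EuclideanSpace ℝ (Fin n)))
    (p : EuclideanSpace ℝ (Fin n))
    (hp : p ∉ convexHull ℝ ((T : Set (EuclideanSpace ℝ (Fin n))) \ {p})) :
    ∃ θ : Fin n → ℝ, (θ j = 1 ∨ θ j = -1) ∧ ∀ q ∈ T, q ≠ p → 0 < ∑ i, θ i * (p i - q i) := by
  have hfin : ((T : Set (EuclideanSpace ℝ (Fin n))) \ {p}).Finite :=
    T.finite_toSet.subset Set.sdiff_subset
  obtain ⟨f, u, hu, hq⟩ := geometric_hahn_banach_point_closed (convex_convexHull ℝ _)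
    (hfin.isCompact_convexHull ℝ).isClosed hp
  have key : ∀ q ∈ T, q ≠ p →
      u - f p < ∑ i, (-f (EuclideanSpace.single i (1 : ℝ))) * (p i - q i) := by
    intro q hqT hne
    have h1 : u < f q := hq q (subset_convexHull ℝ _ ⟨hqT, hne⟩)
    have h2 : ∑ i, (-f (EuclideanSpace.single i (1 : ℝ))) * (p i - q i) = f q - f p := by
      rw [lin_eq f p, lin_eq f q, ← sum_sub_distrib]
      exact sum_congr rfl fun i _ => by ring
    linarith
  have hδ : 0 < u - f p := by linarith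
  by_cases h0 : -f (EuclideanSpace.single j (1 : ℝ)) = 0
  · have hM : 0 < ∑ q ∈ T, |p j - q j| + 1 := by positivity
    set ε : ℝ := (u - f p) / (∑ q ∈ T, |p j - q j| + 1) with hε
    have hεpos : 0 < ε := div_pos hδ hM
    refine normalize j T p
      (fun i => -f (EuclideanSpace.single i (1 : ℝ)) + if i = j then ε else 0) ?_ ?_
    · show -f (EuclideanSpace.single j (1 : ℝ)) + (if j = j then ε else 0) ≠ 0
      rw [h0, if_pos rfl, zero_add]
      exact hεpos.ne'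
    · intro q hqT hne
      have h1 := key q hqT hne
      have h2 : |p j - q j| ≤ ∑ q ∈ T, |p j - q j| :=
        single_le_sum (f := fun q : EuclideanSpace ℝ (Fin n) => |p j - q j|)
          (fun _ _ => abs_nonneg _) hqT
      have h3 : ε * (∑ q ∈ T, |p j - q j| + 1) = u - f p := by
        rw [hε]; field_simp
      have h4 : -|p j - q j| ≤ p j - q j := neg_abs_le _
      have h5 : -(u - f p) ≤ ε * (p j - q j) := by nlinarith
      have h6 : ∑ i, (-f (EuclideanSpace.single i (1 : ℝ)) + if i = j then ε else 0) *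
          (p i - q i) = ∑ i, (-f (EuclideanSpace.single i (1 : ℝ))) * (p i - q i) +
            ε * (p j - q j) := by
        simp only [add_mul, sum_add_distrib, ite_mul, zero_mul, sum_ite_eq', mem_univ, if_true]
      rw [h6]
      linarith
  · exact normalize j T p (fun i => -f (EuclideanSpace.single i (1 : ℝ))) h0
      (fun q hqT hne => hδ.trans (key q hqT hne))

/-- The point set of a tree model. -/
theorem points {κ : Type} [Fintype κ] [LinearOrder κ] {X : Finset (κ → Bool)} {n : ℕ}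
    (hn : 2 ≤ n) {u : κ → ℕ → ℝ} {γ : ℝ} {M : ℕ} (hγ : 0 < γ) (hT : Tree X n u γ M) :
    ∃ S : Finset (EuclideanSpace ℝ (Fin n)),
      (∀ T ⊆ S, T.card ≤ n + 1 → AffineIndependent ℝ
        (fun x : (T : Set (EuclideanSpace ℝ (Fin n))) => (x : EuclideanSpace ℝ (Fin n)))) ∧
      S.card = X.card ∧
      ∀ T ⊆ S, (∀ p ∈ T, p ∉ convexHull ℝ ((T : Set (EuclideanSpace ℝ (Fin n))) \ {p})) →
        T.card ≤ M := by
  obtain ⟨P, δ, hδ, hP⟩ := thick n u hγ
  obtain ⟨P', h1, h2, h3⟩ := generic (n := n) (by omega) (fun z => WithLp.toLp 2 (P z)) hδ X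
  have hc : ∀ z i, |P' z i - P z i| ≤ δ := by
    intro z i
    have := PiLp.norm_apply_le (P' z - WithLp.toLp 2 (P z)) i
    have h := mem_ball_iff_norm.1 (h1 z)
    simp only [PiLp.sub_apply, Real.norm_eq_abs] at this
    exact this.trans h.le
  refine ⟨X.image P', h3, card_image_of_injOn h2, fun T hTS hconv => ?_⟩
  have hθ : ∀ z : κ → Bool, ∃ θ : Fin n → ℝ, (θ ⟨1, by omega⟩ = 1 ∨ θ ⟨1, by omega⟩ = -1) ∧
      (P' z ∈ T → ∀ q ∈ T, q ≠ P' z → 0 < ∑ i, θ i * (P' z i - q i)) := by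
    intro z
    by_cases h : P' z ∈ T
    · obtain ⟨θ, a1, a2⟩ := expose ⟨1, by omega⟩ T _ (hconv _ h)
      exact ⟨θ, a1, fun _ => a2⟩
    · exact ⟨fun _ => 1, Or.inl rfl, fun a => absurd a h⟩
  choose θ hθ1 hθ2 using hθ
  have hcard : T.card ≤ (X.filter fun z => P' z ∈ T).card := by
    refine le_trans (card_le_card fun q hq => ?_) (card_image_le (f := P'))
    obtain ⟨z, hz, rfl⟩ := mem_image.1 (hTS hq)
    exact mem_image.2 ⟨z, mem_filter.2 ⟨hz, hq⟩, rfl⟩
  refine hcard.trans (hT _ (fun z i => if h : i < n then θ z ⟨i, h⟩ else 0) (filter_subset _ _)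
    (fun z => ?_) fun z hz z' hz' c hfd => ?_)
  · have : 1 < n := by omega
    simp only [dif_pos this]
    exact hθ1 z
  · obtain ⟨a1, a2⟩ := mem_filter.1 hz
    obtain ⟨b1, b2⟩ := mem_filter.1 hz'
    have := hP (fun i => P' z i) (fun i => P' z' i) z z' (hc z) (hc z') c (θ z) hfd
      (hθ2 z a2 _ b2 fun e => hfd.ne (h2 b1 a1 e).symm)
    rw [sum_range, sum_range]
    simpa only [Fin.is_lt, dif_pos, Fin.eta] using this

/-- The number of stages can be chosen for every large `n`. -/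
theorem numbers (e c : ℕ) (hc : 1 ≤ c) : ∃ K0 : ℕ, ∀ G k Ns Φ X : ℕ, 1 ≤ G → 1 ≤ k →
    Ns ≤ 16 * k → K0 * Φ ≤ G * k → ∃ N0 : ℕ, ∀ n, N0 ≤ n → ∃ T' a : ℕ, 0 < T' ∧
      (4 * (G * T' * Ns + 1)) ^ e * (8 * (G * T' + 1) * (X + T' * Ns * Φ)) < n ∧
      n ≤ a ^ (e + 2) ∧ 2 * c * a ≤ k * (G * T') := by
  refine ⟨68 ^ e * 257 * (6 * c) ^ (e + 2), ?_⟩
  set K0 := 68 ^ e * 257 * (6 * c) ^ (e + 2) with hK0
  intro G k Ns Φ X hG hk hNs hΦ
  have hK : 0 < K0 := by positivity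
  have hkG : 0 < k * G := Nat.mul_pos hk hG
  set a0 := 16 * K0 * X * (k * G) + k * G + 2 with ha0
  refine ⟨a0 ^ (e + 2) + 1, fun n hn => ?_⟩
  have hex : ∃ a : ℕ, n ≤ a ^ (e + 2) := ⟨n, Nat.le_self_pow (by omega) n⟩
  set a := Nat.find hex with ha
  have h1 : n ≤ a ^ (e + 2) := Nat.find_spec hex
  have h2 : a0 < a := by
    by_contra hlt
    have := Nat.pow_le_pow_left (not_lt.1 hlt) (e + 2)
    omega
  have h3 : (a - 1) ^ (e + 2) < n := not_le.1 (Nat.find_min hex (by omega))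
  set T' := 2 * c * a / (k * G) + 1 with hT'
  have hT0 : 0 < T' := Nat.succ_pos _
  set m := k * (G * T') with hm
  have hm' : m = k * G * (2 * c * a / (k * G)) + k * G := by rw [hm, hT']; ring
  have hdiv := Nat.div_add_mod (2 * c * a) (k * G)
  have hmod := Nat.mod_lt (2 * c * a) hkG
  have hca : a ≤ c * a := Nat.le_mul_of_pos_left _ hc
  have h2ca : 2 * c * a = 2 * (c * a) := by ring
  have hlo : 2 * c * a ≤ m := by omega
  have hhi : m ≤ 6 * c * (a - 1) := by
    have e1 : 6 * c * (a - 1) = 3 * c * (2 * (a - 1)) := by ring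
    have e2 : 3 * c * a ≤ 3 * c * (2 * (a - 1)) := Nat.mul_le_mul_left _ (by omega)
    have e3 : 3 * c * a = 3 * (c * a) := by ring
    omega
  have hTX : 16 * K0 * X ≤ T' := by
    have : 16 * K0 * X ≤ 2 * c * a / (k * G) := (Nat.le_div_iff_mul_le hkG).2 (by omega)
    omega
  refine ⟨T', a, hT0, ?_, h1, hlo⟩
  have hGT : T' ≤ G * T' := Nat.le_mul_of_pos_left _ hG
  have hmG : G * T' ≤ m := Nat.le_mul_of_pos_left _ hk
  have b1 : 4 * (G * T' * Ns + 1) ≤ 68 * m := by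
    have : G * T' * Ns ≤ 16 * m := by
      calc G * T' * Ns ≤ G * T' * (16 * k) := Nat.mul_le_mul_left _ hNs
        _ = 16 * m := by rw [hm]; ring
    omega
  have b2 : K0 * (8 * (G * T' + 1) * (X + T' * Ns * Φ)) ≤ 257 * m ^ 2 := by
    have g1 : K0 * (T' * Ns * Φ) ≤ T' * (16 * k) * (G * k) := by
      calc K0 * (T' * Ns * Φ) = T' * Ns * (K0 * Φ) := by ring
        _ ≤ T' * (16 * k) * (G * k) := Nat.mul_le_mul (Nat.mul_le_mul_left _ hNs) hΦ
    have g2 : 8 * (G * T' + 1) ≤ 16 * (G * T') := by omega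
    have g3 : (G * T') * (16 * K0 * X) ≤ m * m := Nat.mul_le_mul hmG (hTX.trans (hGT.trans hmG))
    calc K0 * (8 * (G * T' + 1) * (X + T' * Ns * Φ))
        = 8 * (G * T' + 1) * (K0 * X + K0 * (T' * Ns * Φ)) := by ring
      _ ≤ 16 * (G * T') * (K0 * X + T' * (16 * k) * (G * k)) :=
          Nat.mul_le_mul g2 (Nat.add_le_add_left g1 _)
      _ = (G * T') * (16 * K0 * X) + 256 * m ^ 2 := by rw [hm]; ring
      _ ≤ m * m + 256 * m ^ 2 := Nat.add_le_add_right g3 _
      _ = 257 * m ^ 2 := by ring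
  have b3 : m ^ (e + 2) < (6 * c) ^ (e + 2) * n := by
    calc m ^ (e + 2) ≤ (6 * c * (a - 1)) ^ (e + 2) := Nat.pow_le_pow_left hhi _
      _ = (6 * c) ^ (e + 2) * (a - 1) ^ (e + 2) := mul_pow _ _ _
      _ < (6 * c) ^ (e + 2) * n := Nat.mul_lt_mul_of_pos_left h3 (by positivity)
  refine Nat.lt_of_mul_lt_mul_left (a := K0) ?_
  calc K0 * ((4 * (G * T' * Ns + 1)) ^ e * (8 * (G * T' + 1) * (X + T' * Ns * Φ)))
      = (4 * (G * T' * Ns + 1)) ^ e * (K0 * (8 * (G * T' + 1) * (X + T' * Ns * Φ))) := by ring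
    _ ≤ (68 * m) ^ e * (257 * m ^ 2) := Nat.mul_le_mul (Nat.pow_le_pow_left b1 e) b2
    _ = 68 ^ e * 257 * m ^ (e + 2) := by rw [mul_pow]; ring
    _ < 68 ^ e * 257 * ((6 * c) ^ (e + 2) * n) := Nat.mul_lt_mul_of_pos_left b3 (by positivity)
    _ = K0 * n := by rw [hK0]; ring

theorem growth (C : ℝ) (c e n a m : ℕ) (hC : C ≤ c) (h1 : n ≤ a ^ (e + 2)) (h2 : 2 * c * a ≤ m) :
    Real.exp (C * (n : ℝ) ^ (1 / (((3 + e : ℕ) : ℝ) - 1))) ≤ ((2 ^ m : ℕ) : ℝ) := by
  have e1 : (1 : ℝ) / (((3 + e : ℕ) : ℝ) - 1) = (((e + 2 : ℕ) : ℝ))⁻¹ := by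
    rw [one_div]
    congr 1
    push_cast
    ring
  have g1 : (n : ℝ) ^ (1 / (((3 + e : ℕ) : ℝ) - 1)) ≤ a := by
    rw [e1]
    calc (n : ℝ) ^ (((e + 2 : ℕ) : ℝ))⁻¹ ≤ ((a : ℝ) ^ (e + 2)) ^ (((e + 2 : ℕ) : ℝ))⁻¹ :=
          Real.rpow_le_rpow (Nat.cast_nonneg n) (by exact_mod_cast h1) (by positivity)
      _ = a := Real.pow_rpow_inv_natCast (Nat.cast_nonneg a) (by omega)
  have g0 : 0 ≤ (n : ℝ) ^ (1 / (((3 + e : ℕ) : ℝ) - 1)) := Real.rpow_nonneg (Nat.cast_nonneg n) _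
  have g2 : C * (n : ℝ) ^ (1 / (((3 + e : ℕ) : ℝ) - 1)) ≤ c * a :=
    (mul_le_mul_of_nonneg_right hC g0).trans (mul_le_mul_of_nonneg_left g1 (Nat.cast_nonneg c))
  have g3 : 2 * (c : ℝ) * a ≤ m := by exact_mod_cast h2
  have g4 : (m : ℝ) * (1 / 2) ≤ m * Real.log 2 :=
    mul_le_mul_of_nonneg_left (by linarith [Real.log_two_gt_d9]) (Nat.cast_nonneg m)
  calc _ ≤ Real.exp (m * Real.log 2) := Real.exp_le_exp.2 (by linarith)
    _ = ((2 ^ m : ℕ) : ℝ) := by
      rw [Real.exp_nat_mul, Real.exp_log (by norm_num)]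
      push_cast
      rfl

/-- Large sets with few points in convex position, in every dimension and for every large `n`. -/
theorem all_dims (hGAD : S_GAD) (hPAR : S_PAR) (hALL : S_ALL) (e : ℕ) (C : ℝ) :
    ∃ N₀ : ℕ, ∀ n : ℕ, N₀ ≤ n → ∃ S : Finset (EuclideanSpace ℝ (Fin (3 + e))),
      (∀ T ⊆ S, T.card ≤ 3 + e + 1 → AffineIndependent ℝ
        (fun x : (T : Set (EuclideanSpace ℝ (Fin (3 + e)))) =>
          (x : EuclideanSpace ℝ (Fin (3 + e))))) ∧
      Real.exp (C * (n : ℝ) ^ (1 / (((3 + e : ℕ) : ℝ) - 1))) ≤ (S.card : ℝ) ∧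
      ∀ T ⊆ S, (∀ p ∈ T, p ∉ convexHull ℝ ((T : Set (EuclideanSpace ℝ (Fin (3 + e)))) \ {p})) →
        T.card < n := by
  obtain ⟨c0, hc0⟩ := exists_nat_ge C
  obtain ⟨K0, hK0⟩ := numbers e (c0 + 1) (by omega)
  obtain ⟨ι, G, i1, i2, i3, i4, d, hk, hNs, hΦ⟩ := hGAD K0
  obtain ⟨N0, hN0⟩ := hK0 (Fintype.card G) d.k d.Ns d.Φ d.X.card Fintype.card_pos hk hNs hΦ
  refine ⟨N0, fun n hn => ?_⟩
  obtain ⟨T', a, hT', hb, h1, h2⟩ := hN0 n hn
  obtain ⟨p⟩ := hPAR ι G d T' hT'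
  obtain ⟨u, hu⟩ := base hALL d p
  obtain ⟨l, hl⟩ := levels d (Fintype.card G * T')
  obtain ⟨u', γ', hγ', hu'⟩ := lift_iter hl p.γ_pos hu e
  obtain ⟨S, s1, s2, s3⟩ := points (by omega) hγ' hu'
  refine ⟨S, s1, ?_, fun T hT h => lt_of_le_of_lt (s3 T hT h) hb⟩
  refine (growth C (c0 + 1) e n a _ (by push_cast; linarith) h1 h2).trans ?_
  rw [s2]
  exact_mod_cast card_leaves d _

end Pool.Agent.Fur.AD
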