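import Pool.Agent.P.MP_358d01_co.Fur.Base0

set_option autoImplicit false

/-! The tree model in every dimension, and the step from one dimension to the next. -/

namespace Pool.Agent.Fur.AD

open Classical Finset

/-- Every family of leaves of `X` that is exposed by directions in dimension `d` has at most `M`
members. -/
def Tree {κ : Type} [LinearOrder κ] (X : Finset (κ → Bool)) (d : ℕ) (u : κ → ℕ → ℝ) (γ : ℝ)
    (M : ℕ) : Prop :=
  ∀ (Y : Finset (κ → Bool)) (θ : (κ → Bool) → ℕ → ℝ), Y ⊆ X → (∀ z, θ z 1 = 1 ∨ θ z 1 = -1) →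
    (∀ z ∈ Y, ∀ z' ∈ Y, ∀ c, FD z z' c →
      0 < sg (z c) * ∑ i ∈ range d, θ z i * u c i + γ * ∑ i ∈ range d, |θ z i|) →
    Y.card ≤ M

/-- The branching coordinates of every leaf have different levels, all below `h`. -/
def Lev {κ : Type} [LinearOrder κ] (X : Finset (κ → Bool)) (l : κ → ℕ) (h : ℕ) : Prop :=
  (∀ z ∈ X, ∀ z' ∈ X, ∀ c, FD z z' c → l c < h) ∧
    ∀ z ∈ X, ∀ z' ∈ X, ∀ z'' ∈ X, ∀ c c', FD z z' c → FD z z'' c' → l c = l c' → c = c'

theorem sg_abs (b : Bool) : |sg b| = 1 := by cases b <;> simp [sg]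

theorem sg_mul_le (b : Bool) (x : ℝ) : sg b * x ≤ |x| := by
  refine (le_abs_self _).trans ?_
  rw [abs_mul, sg_abs, one_mul]

theorem early (b : Bool) (S w A U μ : ℝ) (n h : ℕ) (hS : |S| ≤ U * A) (hA : 0 ≤ A)
    (hU : 0 ≤ U) (h0 : 0 < μ) (hμ : μ * (U + 2) ≤ 1) (hn : n ≤ h)
    (hb : A ≤ μ ^ (2 * n + 1) * |w|)
    (hp : 0 < sg b * (S + w * μ ^ (2 * n)) + μ ^ (2 * h + 2) * (A + |w|)) : 0 < sg b * w := by
  by_contra hc
  have h1 : μ ≤ 1 := by nlinarith
  have e : sg b * w = -|w| := by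
    have : |sg b * w| = |w| := by rw [abs_mul, sg_abs, one_mul]
    rw [← this, abs_of_nonpos (not_lt.1 hc), neg_neg]
  have g1 : μ ^ (2 * h + 2) ≤ μ ^ (2 * n + 1) := pow_le_pow_of_le_one h0.le h1 (by omega)
  have g2 : μ ^ (2 * h + 2) ≤ 1 := pow_le_one₀ h0.le h1
  have g3 : sg b * S ≤ U * A := (sg_mul_le b S).trans hS
  have hw : 0 ≤ |w| := abs_nonneg w
  have hq : 0 < μ ^ (2 * n) := pow_pos h0 _
  rw [pow_succ] at g1 hb
  set q := μ ^ (2 * n)
  set r := μ ^ (2 * h + 2)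
  have g4 : r * A ≤ A := by nlinarith
  have g5 : r * |w| ≤ q * μ * |w| := mul_le_mul_of_nonneg_right g1 hw
  have g6 : U * A ≤ U * (q * μ * |w|) := mul_le_mul_of_nonneg_left hb hU
  have g7 : q * |w| * (μ * (U + 2)) ≤ q * |w| * 1 :=
    mul_le_mul_of_nonneg_left hμ (mul_nonneg hq.le hw)
  have g8 : sg b * (S + w * q) = sg b * S - q * |w| := by
    have : sg b * (S + w * q) = sg b * S + (sg b * w) * q := by ring
    rw [this, e]; ring
  nlinarith

theorem late (b : Bool) (S w A μ γ : ℝ) (n j h : ℕ) (hA : 0 ≤ A) (h0 : 0 < μ) (h1 : μ ≤ 1)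
    (hγ : 3 * μ ≤ γ) (hj : j < n) (hh : j ≤ h) (hb : μ ^ (2 * j + 1) * |w| < A)
    (hp : 0 < sg b * (S + w * μ ^ (2 * n)) + μ ^ (2 * h + 2) * (A + |w|)) :
    0 < sg b * S + γ * A := by
  have hw : 0 ≤ |w| := abs_nonneg w
  have g1 : μ ^ (2 * n) ≤ μ ^ (2 * j + 1 + 1) := pow_le_pow_of_le_one h0.le h1 (by omega)
  have g2 : μ ^ (2 * h + 2) ≤ μ ^ (2 * j + 1 + 1) := pow_le_pow_of_le_one h0.le h1 (by omega)
  have g3 : μ ^ (2 * h + 2) ≤ μ ^ 1 := pow_le_pow_of_le_one h0.le h1 (by omega)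
  rw [pow_one] at g3
  rw [pow_succ μ (2 * j + 1)] at g1 g2
  have hq : 0 < μ ^ (2 * n) := pow_pos h0 _
  set p := μ ^ (2 * j + 1)
  set q := μ ^ (2 * n)
  set r := μ ^ (2 * h + 2)
  have g4 : p * μ * |w| ≤ μ * A := by nlinarith
  have g5 : sg b * w * q ≤ |w| * q := mul_le_mul_of_nonneg_right (sg_mul_le b w) hq.le
  have g6 : |w| * q ≤ |w| * (p * μ) := mul_le_mul_of_nonneg_left g1 hw
  have g7 : r * |w| ≤ p * μ * |w| := mul_le_mul_of_nonneg_right g2 hw
  have g8 : r * A ≤ μ * A := mul_le_mul_of_nonneg_right g3 hA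
  have g9 : 3 * μ * A ≤ γ * A := mul_le_mul_of_nonneg_right hγ hA
  nlinarith

theorem ex_band (h : ℕ) (μ A w : ℝ) : ∃ n : ℕ, h ≤ n ∨ μ ^ (2 * n + 1) * |w| < A :=
  ⟨h, Or.inl le_rfl⟩

/-- The first level that the last coordinate does not dominate. -/
noncomputable def band (h : ℕ) (μ A w : ℝ) : ℕ := Nat.find (ex_band h μ A w)

theorem band_le (h : ℕ) (μ A w : ℝ) : band h μ A w ≤ h :=
  Nat.find_min' (ex_band h μ A w) (Or.inl le_rfl)

theorem of_lt_band {h : ℕ} {μ A w : ℝ} {n : ℕ} (hn : n < band h μ A w) :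
    A ≤ μ ^ (2 * n + 1) * |w| := by
  have := Nat.find_min (ex_band h μ A w) hn
  by_contra hc
  exact this (Or.inr (not_le.1 hc))

theorem at_band {h : ℕ} {μ A w : ℝ} (hb : band h μ A w < h) :
    μ ^ (2 * band h μ A w + 1) * |w| < A := by
  rcases Nat.find_spec (ex_band h μ A w) with h1 | h1
  · exact absurd h1 (not_le.2 hb)
  · exact h1

/-- The coin of a leaf at its branching coordinate of level `j`. -/
noncomputable def coin {κ : Type} [LinearOrder κ] (X : Finset (κ → Bool)) (l : κ → ℕ) (j : ℕ)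
    (z : κ → Bool) : Bool :=
  if H : ∃ c, l c = j ∧ ∃ z' ∈ X, FD z z' c then z H.choose else true

theorem coin_eq {κ : Type} [LinearOrder κ] {X : Finset (κ → Bool)} {l : κ → ℕ} {h : ℕ}
    (hl : Lev X l h) {z z' : κ → Bool} (hz : z ∈ X) (hz' : z' ∈ X) {c : κ} (hc : FD z z' c) :
    coin X l (l c) z = z c := by
  have H : ∃ c', l c' = l c ∧ ∃ z' ∈ X, FD z z' c' := ⟨c, rfl, z', hz', hc⟩
  unfold coin
  rw [dif_pos H]
  obtain ⟨e, z'', hz'', h''⟩ := H.choose_spec
  rw [hl.2 z hz z'' hz'' z' hz' _ _ h'' hc e]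

theorem sign_eq {b b' : Bool} {w w' : ℝ} (h : 0 < sg b * w) (h' : 0 < sg b' * w')
    (e : decide (0 ≤ w) = decide (0 ≤ w')) : b = b' := by
  have e' : 0 ≤ w ↔ 0 ≤ w' := by simpa using e
  cases b <;> cases b' <;> simp only [sg, Bool.false_eq_true, if_false, if_true] at h h'
  · rfl
  · exact absurd (e'.2 (by linarith)) (by linarith)
  · exact absurd (e'.1 (by linarith)) (by linarith)
  · rfl

/-- One more dimension costs the factor `4 (h + 1)`. -/
theorem lift {κ : Type} [Fintype κ] [LinearOrder κ] {X : Finset (κ → Bool)} {l : κ → ℕ} {h : ℕ}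
    (hl : Lev X l h) {d : ℕ} {u : κ → ℕ → ℝ} {γ : ℝ} {M : ℕ} (hγ : 0 < γ)
    (hT : Tree X d u γ M) :
    ∃ (u' : κ → ℕ → ℝ) (γ' : ℝ), 0 < γ' ∧ Tree X (d + 1) u' γ' (4 * (h + 1) * M) := by
  set U : ℝ := ∑ c, ∑ i ∈ range d, |u c i| with hUdef
  have hU0 : 0 ≤ U := sum_nonneg fun _ _ => sum_nonneg fun _ _ => abs_nonneg _
  have hU : ∀ c, ∀ i ∈ range d, |u c i| ≤ U := by
    intro c i hi
    have a1 : |u c i| ≤ ∑ j ∈ range d, |u c j| :=
      single_le_sum (f := fun j => |u c j|) (fun _ _ => abs_nonneg _) hi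
    have a2 : ∑ j ∈ range d, |u c j| ≤ ∑ c', ∑ j ∈ range d, |u c' j| :=
      single_le_sum (f := fun c' => ∑ j ∈ range d, |u c' j|)
        (fun _ _ => sum_nonneg fun _ _ => abs_nonneg _) (mem_univ c)
    linarith
  set μ : ℝ := min (γ / 3) (1 / (U + 2)) with hμdef
  have h0 : 0 < μ := lt_min (by linarith) (by positivity)
  have hμ : μ * (U + 2) ≤ 1 := (le_div_iff₀ (by linarith)).1 (min_le_right _ _)
  have h1 : μ ≤ 1 := by nlinarith
  have h3 : 3 * μ ≤ γ := by
    have : μ ≤ γ / 3 := min_le_left _ _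
    linarith
  refine ⟨fun c i => if i = d then μ ^ (2 * l c) else u c i, μ ^ (2 * h + 2), pow_pos h0 _, ?_⟩
  intro Y θ hX hθ hY
  set A : (κ → Bool) → ℝ := fun z => ∑ i ∈ range d, |θ z i| with hA
  set S : (κ → Bool) → κ → ℝ := fun z c => ∑ i ∈ range d, θ z i * u c i with hS
  have hA0 : ∀ z, 0 ≤ A z := fun z => sum_nonneg fun _ _ => abs_nonneg _
  have hSA : ∀ z c, |S z c| ≤ U * A z := by
    intro z c
    refine (abs_sum_le_sum_abs _ _).trans ?_
    simp only [hA]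
    rw [mul_sum]
    refine sum_le_sum fun i hi => ?_
    rw [abs_mul, mul_comm U]
    exact mul_le_mul_of_nonneg_left (hU c i hi) (abs_nonneg _)
  have hY' : ∀ z ∈ Y, ∀ z' ∈ Y, ∀ c, FD z z' c →
      0 < sg (z c) * (S z c + θ z d * μ ^ (2 * l c)) + μ ^ (2 * h + 2) * (A z + |θ z d|) := by
    intro z hz z' hz' c hc
    have := hY z hz z' hz' c hc
    rw [sum_range_succ, sum_range_succ] at this
    simp only [if_true] at this
    have e : ∑ i ∈ range d, θ z i * (if i = d then μ ^ (2 * l c) else u c i) = S z c :=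
      sum_congr rfl fun i hi => by rw [if_neg (mem_range.1 hi).ne]
    rw [e] at this
    exact this
  let f : (κ → Bool) → Fin (h + 1) × Bool × Bool := fun z =>
    (⟨band h μ (A z) (θ z d), Nat.lt_succ_of_le (band_le _ _ _ _)⟩, decide (0 ≤ θ z d),
      coin X l (band h μ (A z) (θ z d)) z)
  have hfib : ∀ k : Fin (h + 1) × Bool × Bool, (Y.filter fun z => f z = k).card ≤ M := by
    rintro ⟨j, s, b⟩
    have hmem : ∀ z ∈ Y.filter (fun z => f z = (j, s, b)), z ∈ Y ∧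
        band h μ (A z) (θ z d) = j ∧ decide (0 ≤ θ z d) = s ∧ coin X l j z = b := by
      intro z hz
      obtain ⟨hzY, hz⟩ := mem_filter.1 hz
      simp only [f, Prod.mk.injEq] at hz
      have e : band h μ (A z) (θ z d) = j := by rw [← hz.1]
      exact ⟨hzY, e, hz.2.1, by rw [← e]; exact hz.2.2⟩
    refine hT _ θ ((filter_subset _ _).trans hX) hθ fun z hz z' hz' c hc => ?_
    obtain ⟨a1, a2, a3, a4⟩ := hmem z hz
    obtain ⟨b1, b2, b3, b4⟩ := hmem z' hz'
    have hlt := hl.1 z (hX a1) z' (hX b1) c hc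
    rcases lt_trichotomy (l c) j with hj | hj | hj
    · have p1 := early (z c) _ _ _ U μ (l c) h (hSA z c) (hA0 z) hU0 h0 hμ hlt.le
        (of_lt_band (by rw [a2]; exact hj)) (hY' z a1 z' b1 c hc)
      have p2 := early (z' c) _ _ _ U μ (l c) h (hSA z' c) (hA0 z') hU0 h0 hμ hlt.le
        (of_lt_band (by rw [b2]; exact hj)) (hY' z' b1 z a1 c hc.symm)
      exact absurd (sign_eq p1 p2 (a3.trans b3.symm)) hc.1
    · have p1 := coin_eq hl (hX a1) (hX b1) hc
      have p2 := coin_eq hl (hX b1) (hX a1) hc.symm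
      rw [hj, a4] at p1
      rw [hj, b4] at p2
      exact absurd (p1.symm.trans p2) hc.1
    · have hb := at_band (h := h) (μ := μ) (A := A z) (w := θ z d) (by rw [a2]; omega)
      rw [a2] at hb
      exact late (z c) _ _ _ μ γ (l c) j h (hA0 z) h0 h1 h3 hj (by omega) hb
        (hY' z a1 z' b1 c hc)
  have := card_le_mul_card_image_of_maps_to (f := f) (s := Y) (t := univ)
    (fun _ _ => mem_univ _) M (fun k _ => hfib k)
  refine this.trans (le_of_eq ?_)
  simp only [card_univ, Fintype.card_prod, Fintype.card_fin, Fintype.card_bool]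
  ring

theorem lift_iter {κ : Type} [Fintype κ] [LinearOrder κ] {X : Finset (κ → Bool)} {l : κ → ℕ}
    {h : ℕ} (hl : Lev X l h) {d : ℕ} {u : κ → ℕ → ℝ} {γ : ℝ} {M : ℕ} (hγ : 0 < γ)
    (hT : Tree X d u γ M) (e : ℕ) :
    ∃ (u' : κ → ℕ → ℝ) (γ' : ℝ), 0 < γ' ∧ Tree X (d + e) u' γ' ((4 * (h + 1)) ^ e * M) := by
  induction e with
  | zero => exact ⟨u, γ, hγ, by simpa using hT⟩
  | succ e ih =>
    obtain ⟨u', γ', h1, h2⟩ := ih
    obtain ⟨u'', γ'', h3, h4⟩ := lift hl h1 h2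
    refine ⟨u'', γ'', h3, ?_⟩
    have e1 : (4 * (h + 1)) ^ (e + 1) * M = 4 * (h + 1) * ((4 * (h + 1)) ^ e * M) := by ring
    rw [e1]
    exact h4

/-- The leaves of the tree with `T` stages. -/
noncomputable def leaves {ι G : Type} [Fintype ι] [LinearOrder ι] (d : Gad ι G) (T : ℕ) :
    Finset (Lex (Fin T × ι) → Bool) :=
  univ.filter fun z => ∀ i, stage z i ∈ d.X

theorem mem_leaves {ι G : Type} [Fintype ι] [LinearOrder ι] {d : Gad ι G} {T : ℕ}
    {z : Lex (Fin T × ι) → Bool} : z ∈ leaves d T ↔ ∀ i, stage z i ∈ d.X := by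
  simp [leaves]

theorem card_leaves {ι G : Type} [Fintype ι] [LinearOrder ι] (d : Gad ι G) (T : ℕ) :
    2 ^ (d.k * T) ≤ (leaves d T).card := by
  have := card_le_card_of_injOn (s := (univ : Finset (Fin T → d.X))) (t := leaves d T)
    (fun (x : Fin T → d.X) (e : Lex (Fin T × ι)) => (x (ofLex e).1).1 (ofLex e).2)
    (fun x _ => mem_coe.2 (mem_leaves.2 fun i => (x i).2))
    (fun x _ y _ e => funext fun i => Subtype.ext (congrArg (fun z => stage z i) e))
  rw [card_univ, Fintype.card_fun, Fintype.card_coe, Fintype.card_fin] at this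
  rw [pow_mul]
  exact (Nat.pow_le_pow_left d.card_ge T).trans this

theorem rank_lt {Z : Finset ℤ} {a b : ℤ} (ha : a ∈ Z) (h : a < b) :
    (Z.filter (· < a)).card < (Z.filter (· < b)).card := by
  refine card_lt_card ⟨fun x hx => ?_, fun hs => ?_⟩
  · rw [mem_filter] at hx ⊢
    exact ⟨hx.1, hx.2.trans h⟩
  · have := mem_filter.1 (hs (mem_filter.2 ⟨ha, h⟩))
    exact lt_irrefl _ this.2

theorem levels {ι G : Type} [Fintype ι] [LinearOrder ι] [Nonempty G] (d : Gad ι G) (T : ℕ) :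
    ∃ l : Lex (Fin T × ι) → ℕ, Lev (leaves d T) l (T * d.Ns) := by
  obtain ⟨g⟩ := (inferInstance : Nonempty G)
  obtain ⟨Z, hZ, hZ'⟩ := d.slots g
  let r : ι → ℕ := fun c => (Z.filter (· < d.key c g / (d.Tb : ℤ))).card
  have hact : ∀ z ∈ leaves d T, ∀ z' ∈ leaves d T, ∀ (i : Fin T) (c : ι),
      FD z z' (toLex (i, c)) → d.key c g / (d.Tb : ℤ) ∈ Z := fun z hz z' hz' i c h =>
    hZ' _ (mem_leaves.1 hz i) _ (mem_leaves.1 hz' i) c ((FD_stage_iff z z' i c).1 h).2
  have hr : ∀ c, d.key c g / (d.Tb : ℤ) ∈ Z → r c < d.Ns := by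
    intro c hc
    refine lt_of_lt_of_le (card_lt_card ⟨filter_subset _ _, fun hs => ?_⟩) hZ
    exact lt_irrefl _ (mem_filter.1 (hs hc)).2
  refine ⟨fun e => ((ofLex e).1 : ℕ) * d.Ns + r (ofLex e).2, ?_, ?_⟩
  · rintro z hz z' hz' ⟨i, c⟩ h
    have h1 := hr c (hact z hz z' hz' i c h)
    have h2 : ((i : ℕ) + 1) * d.Ns ≤ T * d.Ns := Nat.mul_le_mul_right _ i.2
    change (i : ℕ) * d.Ns + r c < _
    rw [add_mul, one_mul] at h2
    omega
  · rintro z hz z' hz' z'' hz'' ⟨i, c⟩ ⟨i', c'⟩ h h' e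
    have m1 := hact z hz z' hz' i c h
    have m2 := hact z hz z'' hz'' i' c' h'
    have h1 := hr c m1
    have h2 := hr c' m2
    change (i : ℕ) * d.Ns + r c = (i' : ℕ) * d.Ns + r c' at e
    have hi : i = i' := by
      apply Fin.ext
      rcases lt_trichotomy (i : ℕ) i' with hl | hl | hl
      · have := Nat.mul_le_mul_right d.Ns (Nat.succ_le_of_lt hl)
        rw [Nat.succ_mul] at this
        omega
      · exact hl
      · have := Nat.mul_le_mul_right d.Ns (Nat.succ_le_of_lt hl)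
        rw [Nat.succ_mul] at this
        omega
    subst hi
    have hrr : r c = r c' := by omega
    have hcc : c = c' := by
      by_contra hne
      have := d.slot_ne g _ (mem_leaves.1 hz i) _ (mem_leaves.1 hz' i) _ (mem_leaves.1 hz'' i) c c'
        ((FD_stage_iff z z' i c).1 h).2 ((FD_stage_iff z z'' i c').1 h').2 hne
      rcases lt_or_gt_of_ne this with hl | hl
      · exact absurd hrr (rank_lt m1 hl).ne
      · exact absurd hrr (rank_lt m2 hl).ne'
    rw [hcc]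

/-- The tree model in dimension three. -/
theorem base (hALL : S_ALL) {ι G : Type} [Fintype ι] [LinearOrder ι] [Fintype G] (d : Gad ι G)
    {T T' : ℕ} (p : Par d T T') :
    ∃ u : Lex (Fin T × ι) → ℕ → ℝ,
      Tree (leaves d T) 3 u p.γ (8 * (T + 1) * (d.X.card + T' * d.Ns * d.Φ)) := by
  refine ⟨fun e i => if i = 0 then -1 + p.η * d.b (ofLex e).2 else
    if i = 1 then -p.τ (ofLex e).1 - p.η * d.a (ofLex e).2 else p.μ ^ (2 * ((ofLex e).1 : ℕ)), ?_⟩
  intro Y θ hX hθ hY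
  refine hALL ι G d T T' p Y (fun z => decide (θ z 1 = 1)) (fun z => -θ z 0 * θ z 1)
    (fun z => θ z 2 * θ z 1) (fun z hz => mem_leaves.1 (hX hz)) fun z hz z' hz' i c hfd => ?_
  have := hY z hz z' hz' _ hfd
  simp only [sum_range_succ, range_zero, sum_empty, zero_add, ofLex_toLex, if_true,
    one_ne_zero, if_false, OfNat.ofNat_ne_zero, OfNat.ofNat_ne_one] at this
  have hn : ¬ ((-1 : ℝ) = 1) := by norm_num
  change (z (toLex (i, c)) = _ → _) ∧ (z (toLex (i, c)) ≠ _ → _)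
  rcases hθ z with e | e
  · simp only [e, decide_true, thk, Gad.L, mul_one, abs_neg, abs_one, ne_eq,
      Bool.not_eq_true] at this ⊢
    refine ⟨fun h => ?_, fun h => ?_⟩ <;> rw [h] at this <;>
      simp only [sg, if_true, Bool.false_eq_true, if_false] at this <;> linarith
  · simp only [e, hn, decide_false, thk, Gad.L, mul_neg, mul_one, neg_neg, neg_mul, abs_neg,
      abs_one, ne_eq, Bool.not_eq_false] at this ⊢
    refine ⟨fun h => ?_, fun h => ?_⟩ <;> rw [h] at this <;>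
      simp only [sg, if_true, Bool.false_eq_true, if_false] at this <;> linarith

end Pool.Agent.Fur.AD
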